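import Pool.Agent.Lib.MP_3dbc4a_an.Coding

/-!
# MP_3dbc4a_an: the saddle-node fixed point attracts an open set
-/

set_option autoImplicit false

open Filter Set MeasureTheory
open scoped Topology

namespace Pool.Agent.Wild

variable {b : ℝ}

/-- the region on the node side of the fixed point -/
def Rg (b : ℝ) : Set (ℝ × ℝ) :=
  {z | -((1 - b) ^ 2 / 312) ≤ z.1 ∧ z.1 < 0 ∧ (1 + b) / (2 * b) * z.1 ≤ z.2 ∧ z.2 ≤ z.1}

theorem F_fst (b : ℝ) (z : ℝ × ℝ) : (F b z).1 = (1 + b) * rr z.1 - b * z.2 := rfl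

theorem F_snd (b : ℝ) (z : ℝ × ℝ) : (F b z).2 = z.1 := rfl

theorem F_continuous (b : ℝ) : Continuous (F b) := by
  have h := rr_continuous
  unfold F
  fun_prop

theorem Rg_le (hb : 0 < b) {z : ℝ × ℝ} (hz : z ∈ Rg b) : z.1 ≤ (F b z).1 := by
  obtain ⟨h1, h2, h3, h4⟩ := hz
  rw [F_fst]
  unfold rr
  have e : (1 + b) * (z.1 + 19 * z.1 ^ 2 - 20 * z.1 ^ 3) - b * z.2 =
      z.1 + b * (z.1 - z.2) + (1 + b) * (z.1 ^ 2 * (19 + 20 * (-z.1))) := by ring
  rw [e]
  have e1 : 0 ≤ b * (z.1 - z.2) := mul_nonneg hb.le (by linarith)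
  have e2 : 0 ≤ (1 + b) * (z.1 ^ 2 * (19 + 20 * (-z.1))) :=
    mul_nonneg (by linarith) (mul_nonneg (sq_nonneg _) (by linarith))
  linarith

theorem Rg_maps (hb : 0 < b) (hb1 : b < 1) {z : ℝ × ℝ} (hz : z ∈ Rg b) : F b z ∈ Rg b := by
  have hle := Rg_le hb hz
  obtain ⟨h1, h2, h3, h4⟩ := hz
  set x := z.1 with hx
  set y := z.2 with hy
  have hbx : 0 < 2 * b := by linarith
  -- the key inequality `κ x' ≤ x`
  have h3' : (1 + b) * x ≤ 2 * b * y := by
    have := mul_le_mul_of_nonneg_left h3 hbx.le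
    have e : 2 * b * ((1 + b) / (2 * b) * x) = (1 + b) * x := by
      field_simp
    rwa [e] at this
  have hs : (1 - b) ^ 2 ≤ 1 := by nlinarith
  have hx1 : -1 ≤ x := by
    have : (1 - b) ^ 2 / 312 ≤ 1 := by linarith
    linarith
  have key : (1 + b) * (F b z).1 ≤ 2 * b * x := by
    rw [F_fst]
    unfold rr
    rw [← hx, ← hy]
    have e1 : (1 + b) * ((1 + b) * (x + 19 * x ^ 2 - 20 * x ^ 3) - b * y) - 2 * b * x =
        (1 + b) / 2 * ((1 + b) * x - 2 * b * y) +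
        x * ((1 - b) ^ 2 / 2 + (1 + b) ^ 2 * x * (19 - 20 * x)) := by ring
    have e2 : (1 + b) / 2 * ((1 + b) * x - 2 * b * y) ≤ 0 :=
      mul_nonpos_of_nonneg_of_nonpos (by linarith) (by linarith)
    have e3 : 0 ≤ (1 - b) ^ 2 / 2 + (1 + b) ^ 2 * x * (19 - 20 * x) := by
      have e4 : (1 + b) ^ 2 * (-x) * (19 - 20 * x) ≤ 4 * (-x) * 39 := by
        have f1 : (1 + b) ^ 2 ≤ 4 := by nlinarith
        have f2 : 19 - 20 * x ≤ 39 := by linarith
        have f3 : (1 + b) ^ 2 * (-x) ≤ 4 * (-x) := mul_le_mul_of_nonneg_right f1 (by linarith)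
        exact mul_le_mul f3 f2 (by linarith) (by linarith)
      have e5 : (1 + b) ^ 2 * x * (19 - 20 * x) = -((1 + b) ^ 2 * (-x) * (19 - 20 * x)) := by ring
      rw [e5]
      linarith
    have e4 : x * ((1 - b) ^ 2 / 2 + (1 + b) ^ 2 * x * (19 - 20 * x)) ≤ 0 :=
      mul_nonpos_of_nonpos_of_nonneg h2.le e3
    linarith
  refine ⟨h1.trans hle, ?_, ?_, ?_⟩
  · by_contra hneg
    have h5 : 0 ≤ (1 + b) * (F b z).1 := mul_nonneg (by linarith) (not_lt.1 hneg)
    have h6 : 2 * b * x < 0 := mul_neg_of_pos_of_neg hbx h2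
    linarith
  · rw [F_snd, div_mul_eq_mul_div, div_le_iff₀ hbx]
    linarith
  · rw [F_snd]
    exact hle

theorem Rg_iter (hb : 0 < b) (hb1 : b < 1) {z : ℝ × ℝ} (hz : z ∈ Rg b) (n : ℕ) :
    (F b)^[n] z ∈ Rg b := by
  induction n with
  | zero => exact hz
  | succ n ih =>
    rw [Function.iterate_succ_apply']
    exact Rg_maps hb hb1 ih

theorem Rg_tendsto (hb : 0 < b) (hb1 : b < 1) {z : ℝ × ℝ} (hz : z ∈ Rg b) :
    Tendsto (fun n : ℕ => (F b)^[n] z) atTop (𝓝 (0, 0)) := by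
  have hmono : Monotone fun n : ℕ => ((F b)^[n] z).1 := by
    refine monotone_nat_of_le_succ fun n => ?_
    rw [Function.iterate_succ_apply']
    exact Rg_le hb (Rg_iter hb hb1 hz n)
  have hbdd : BddAbove (range fun n : ℕ => ((F b)^[n] z).1) := by
    refine ⟨0, ?_⟩
    rintro _ ⟨n, rfl⟩
    exact (Rg_iter hb hb1 hz n).2.1.le
  have hlim := tendsto_atTop_ciSup hmono hbdd
  set l := ⨆ n : ℕ, ((F b)^[n] z).1 with hl
  have hl0 : l ≤ 0 := le_of_tendsto' hlim fun n => (Rg_iter hb hb1 hz n).2.1.le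
  have hlim1 : Tendsto (fun n : ℕ => ((F b)^[n + 1] z).1) atTop (𝓝 l) :=
    hlim.comp (tendsto_add_atTop_nat 1)
  have hsnd : Tendsto (fun n : ℕ => ((F b)^[n + 1] z).2) atTop (𝓝 l) := by
    refine hlim.congr fun n => ?_
    rw [Function.iterate_succ_apply', F_snd]
  have hpair : Tendsto (fun n : ℕ => (F b)^[n + 1] z) atTop (𝓝 (l, l)) :=
    hlim1.prodMk_nhds hsnd
  have hpair0 : Tendsto (fun n : ℕ => (F b)^[n] z) atTop (𝓝 (l, l)) :=
    (tendsto_add_atTop_iff_nat 1).1 hpair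
  have hF : Tendsto (fun n : ℕ => F b ((F b)^[n] z)) atTop (𝓝 (F b (l, l))) :=
    ((F_continuous b).tendsto _).comp hpair0
  have hfix : F b (l, l) = (l, l) := by
    refine tendsto_nhds_unique hF (hpair.congr fun n => ?_)
    rw [Function.iterate_succ_apply']
  have h1 : (1 + b) * rr l - b * l = l := congrArg Prod.fst hfix
  unfold rr at h1
  have h2 : (1 + b) * (l ^ 2 * (19 - 20 * l)) = 0 := by linarith
  have h3 : l ^ 2 = 0 := by
    rcases mul_eq_zero.1 h2 with h | h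
    · linarith
    · rcases mul_eq_zero.1 h with h | h
      · exact h
      · linarith
  have h4 : l = 0 := pow_eq_zero_iff (two_ne_zero) |>.1 h3
  rw [h4] at hpair0
  exact hpair0

theorem omegaSet_of_tendsto {f : ℝ × ℝ → ℝ × ℝ} {z w : ℝ × ℝ}
    (h : Tendsto (fun n : ℕ => f^[n] z) atTop (𝓝 w)) : omegaSet f z = {w} := by
  ext v
  constructor
  · intro hv
    have h1 : MapClusterPt v atTop fun n : ℕ => f^[n] z := hv
    have h2 : (𝓝 v ⊓ 𝓝 w).NeBot := by
      have h3 : (𝓝 v ⊓ map (fun n : ℕ => f^[n] z) atTop).NeBot := h1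
      exact h3.mono (inf_le_inf_left _ h)
    exact eq_of_nhds_neBot h2
  · rintro rfl
    exact h.mapClusterPt

/-- the basin of every set which contains the fixed point contains a nonempty open set -/
theorem basin_interior (hb : 0 < b) (hb1 : b < 1) {Λ : Set (ℝ × ℝ)} (h0 : ((0 : ℝ), (0 : ℝ)) ∈ Λ) :
    (interior (basin (F b) Λ)).Nonempty := by
  set κ := (1 + b) / (2 * b) with hκ
  set ε := (1 - b) ^ 2 / 312 with hε
  have hε0 : 0 < ε := by
    have : 0 < (1 - b) ^ 2 := by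
      have : 0 < 1 - b := by linarith
      positivity
    positivity
  have hκ1 : 1 < κ := by
    rw [hκ, lt_div_iff₀ (by linarith)]
    linarith
  have hsub : {z : ℝ × ℝ | -ε < z.1 ∧ z.1 < 0 ∧ κ * z.1 < z.2 ∧ z.2 < z.1} ⊆
      basin (F b) Λ := by
    rintro z ⟨h1, h2, h3, h4⟩
    have hz : z ∈ Rg b := ⟨h1.le, h2, h3.le, h4.le⟩
    have h5 := omegaSet_of_tendsto (Rg_tendsto hb hb1 hz)
    refine ⟨by rw [h5]; exact singleton_nonempty _, ?_⟩
    rw [h5]
    rintro _ rfl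
    exact h0
  have hopen : IsOpen {z : ℝ × ℝ | -ε < z.1 ∧ z.1 < 0 ∧ κ * z.1 < z.2 ∧ z.2 < z.1} := by
    have o1 : IsOpen {z : ℝ × ℝ | -ε < z.1} := isOpen_lt continuous_const continuous_fst
    have o2 : IsOpen {z : ℝ × ℝ | z.1 < 0} := isOpen_lt continuous_fst continuous_const
    have o3 : IsOpen {z : ℝ × ℝ | κ * z.1 < z.2} :=
      isOpen_lt (continuous_fst.const_mul κ) continuous_snd
    have o4 : IsOpen {z : ℝ × ℝ | z.2 < z.1} := isOpen_lt continuous_snd continuous_fst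
    exact o1.inter (o2.inter (o3.inter o4))
  refine ⟨(-ε / 2, (1 + κ) / 2 * (-ε / 2)), interior_maximal hsub hopen ⟨?_, ?_, ?_, ?_⟩⟩
  · change -ε < -ε / 2
    linarith
  · change -ε / 2 < 0
    linarith
  · change κ * (-ε / 2) < (1 + κ) / 2 * (-ε / 2)
    nlinarith
  · change (1 + κ) / 2 * (-ε / 2) < -ε / 2
    nlinarith

end Pool.Agent.Wild
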