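import Pool.Agent.Lib.MP_3dbc4a_an.Defs

/-!
# MP_3dbc4a_an: the cubic polynomial and its inverse branches
-/

set_option autoImplicit false

open Filter Set
open scoped Topology

namespace Pool.Agent.Wild

/-- the cubic polynomial `x (1 - x) (1 + 20 x)` -/
def rr (x : ℝ) : ℝ := x + 19 * x ^ 2 - 20 * x ^ 3

/-- the two intervals -/
def II : Bool → Set ℝ
  | false => Icc 0 (1 / 4)
  | true => Icc (3 / 4) 1

theorem rr_sub (x y : ℝ) :
    rr y - rr x = (y - x) * (1 + 19 * (x + y) - 20 * (x ^ 2 + x * y + y ^ 2)) := by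
  unfold rr
  ring

theorem rr_false {x y : ℝ} (hx : x ∈ II false) (hy : y ∈ II false) (h : x ≤ y) :
    (y - x) * (1 + 9 * (x + y)) ≤ rr y - rr x := by
  obtain ⟨hx0, hx1⟩ := hx
  obtain ⟨hy0, hy1⟩ := hy
  rw [rr_sub]
  refine mul_le_mul_of_nonneg_left ?_ (by linarith)
  nlinarith [mul_nonneg hx0 hy0, mul_nonneg (add_nonneg hx0 hy0)
    (by linarith : (0 : ℝ) ≤ 1 / 2 - (x + y))]

theorem rr_true {x y : ℝ} (hx : x ∈ II true) (hy : y ∈ II true) (h : x ≤ y) :
    4 * (y - x) ≤ rr x - rr y := by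
  obtain ⟨hx0, hx1⟩ := hx
  obtain ⟨hy0, hy1⟩ := hy
  have e : rr x - rr y = (y - x) * (20 * (x ^ 2 + x * y + y ^ 2) - 19 * (x + y) - 1) := by
    unfold rr
    ring
  rw [e, mul_comm]
  refine mul_le_mul_of_nonneg_left ?_ (by linarith)
  nlinarith [sq_nonneg (x - y), mul_nonneg (by linarith : (0 : ℝ) ≤ x + y)
    (by linarith : (0 : ℝ) ≤ x + y - 3 / 2)]

/-- the slopes on both intervals have absolute value larger than one -/
theorem rr_expand {i : Bool} {x y : ℝ} (hx : x ∈ II i) (hy : y ∈ II i) (h : x ≠ y) :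
    |x - y| < |rr x - rr y| := by
  wlog hxy : x < y generalizing x y with H
  · have h1 := H hy hx h.symm (lt_of_le_of_ne (not_lt.1 hxy) h.symm)
    rwa [abs_sub_comm y x, abs_sub_comm (rr y) (rr x)] at h1
  · cases i
    · have h1 := rr_false hx hy hxy.le
      have hx0 : 0 ≤ x := hx.1
      have h2 : 0 < (y - x) * (9 * (x + y)) := by
        apply mul_pos <;> linarith
      rw [abs_sub_comm x y, abs_sub_comm (rr x), abs_of_pos (by linarith : 0 < y - x)]
      exact lt_of_lt_of_le (by linarith) (le_abs_self _)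
    · have h1 := rr_true hx hy hxy.le
      rw [abs_sub_comm x y, abs_of_pos (by linarith : 0 < y - x)]
      exact lt_of_lt_of_le (by linarith) (le_abs_self _)

theorem rr_continuous : Continuous rr := by
  unfold rr
  fun_prop

theorem exists_branch (i : Bool) {u : ℝ} (hu : u ∈ Icc (0 : ℝ) 1) : ∃ x ∈ II i, rr x = u := by
  cases i
  · have h := intermediate_value_Icc (a := (0 : ℝ)) (b := 1 / 4) (by norm_num)
      rr_continuous.continuousOn
    have h0 : rr 0 = 0 := by norm_num [rr]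
    have h1 : rr (1 / 4) = 9 / 8 := by norm_num [rr]
    rw [h0, h1] at h
    obtain ⟨x, hx, e⟩ := h ⟨hu.1, hu.2.trans (by norm_num)⟩
    exact ⟨x, hx, e⟩
  · have h := intermediate_value_Icc' (a := (3 / 4 : ℝ)) (b := 1) (by norm_num)
      rr_continuous.continuousOn
    have h0 : rr (3 / 4) = 3 := by norm_num [rr]
    have h1 : rr 1 = 0 := by norm_num [rr]
    rw [h0, h1] at h
    obtain ⟨x, hx, e⟩ := h ⟨hu.1, hu.2.trans (by norm_num)⟩
    exact ⟨x, hx, e⟩

/-- the projection to the unit interval -/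
noncomputable def cl (u : ℝ) : ℝ := max 0 (min u 1)

theorem cl_mem (u : ℝ) : cl u ∈ Icc (0 : ℝ) 1 :=
  ⟨le_max_left _ _, max_le zero_le_one (min_le_right _ _)⟩

theorem cl_of_mem {u : ℝ} (hu : u ∈ Icc (0 : ℝ) 1) : cl u = u := by
  unfold cl
  rw [min_eq_left hu.2, max_eq_right hu.1]

theorem cl_lip (u v : ℝ) : |cl u - cl v| ≤ |u - v| := by
  have h1 := neg_abs_le (u - v)
  have h2 := le_abs_self (u - v)
  simp only [cl, max_def, min_def]
  rw [abs_le]
  split_ifs <;> constructor <;> linarith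

/-- the inverse branches, extended to the real line -/
noncomputable def G (i : Bool) (u : ℝ) : ℝ := Classical.choose (exists_branch i (cl_mem u))

theorem G_mem (i : Bool) (u : ℝ) : G i u ∈ II i :=
  (Classical.choose_spec (exists_branch i (cl_mem u))).1

theorem rr_G' (i : Bool) (u : ℝ) : rr (G i u) = cl u :=
  (Classical.choose_spec (exists_branch i (cl_mem u))).2

theorem rr_G (i : Bool) {u : ℝ} (hu : u ∈ Icc (0 : ℝ) 1) : rr (G i u) = u := by
  rw [rr_G', cl_of_mem hu]

theorem II_sub (i : Bool) {x : ℝ} (hx : x ∈ II i) : x ∈ Icc (0 : ℝ) 1 := by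
  cases i
  · exact ⟨hx.1, hx.2.trans (by norm_num)⟩
  · exact ⟨le_trans (by norm_num) hx.1, hx.2⟩

theorem G_mem01 (i : Bool) (u : ℝ) : G i u ∈ Icc (0 : ℝ) 1 := II_sub i (G_mem i u)

/-- the inverse branch is the unique solution in the interval -/
theorem G_eq {i : Bool} {x u : ℝ} (hx : x ∈ II i) (hu : u ∈ Icc (0 : ℝ) 1) (e : rr x = u) :
    G i u = x := by
  by_contra h
  have h1 := rr_expand (G_mem i u) hx h
  rw [rr_G i hu, e, sub_self, abs_zero] at h1
  exact absurd h1 (not_lt.2 (abs_nonneg _))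

theorem G_lip (i : Bool) (u v : ℝ) : |G i u - G i v| ≤ |u - v| := by
  by_cases h : G i u = G i v
  · rw [h, sub_self, abs_zero]
    exact abs_nonneg _
  · have h1 := rr_expand (G_mem i u) (G_mem i v) h
    rw [rr_G', rr_G'] at h1
    exact h1.le.trans (cl_lip u v)

theorem G_lt (i : Bool) {u v : ℝ} (h : G i u ≠ G i v) : |G i u - G i v| < |u - v| := by
  have h1 := rr_expand (G_mem i u) (G_mem i v) h
  rw [rr_G', rr_G'] at h1
  exact h1.trans_le (cl_lip u v)

theorem G_continuous (i : Bool) : Continuous (G i) := by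
  have : LipschitzWith 1 (G i) := by
    refine LipschitzWith.of_dist_le_mul fun u v => ?_
    rw [Real.dist_eq, Real.dist_eq, NNReal.coe_one, one_mul]
    exact G_lip i u v
  exact this.continuous

theorem II_disj {i j : Bool} {x : ℝ} (hx : x ∈ II i) (hy : x ∈ II j) : i = j := by
  cases i <;> cases j
  · rfl
  · have h1 : x ≤ 1 / 4 := hx.2
    have h2 : 3 / 4 ≤ x := hy.1
    linarith
  · have h1 : x ≤ 1 / 4 := hy.2
    have h2 : 3 / 4 ≤ x := hx.1
    linarith
  · rfl

end Pool.Agent.Wild
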