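import Pool.Agent.Lib.MP_3dbc4a_an.Branch

/-!
# MP_3dbc4a_an: the orbit with a given itinerary
-/

set_option autoImplicit false

open Filter Set
open scoped Topology

namespace Pool.Agent.Wild

/-- the weighted average of the two neighbours -/
noncomputable def av (b : ℝ) (x : ℤ → ℝ) (n : ℤ) : ℝ := (x (n + 1) + b * x (n - 1)) / (1 + b)

/-- `x` is a bounded orbit with the itinerary `s` -/
def IsSol (b : ℝ) (s : ℤ → Bool) (x : ℤ → ℝ) : Prop := ∀ n, x n = G (s n) (av b x n)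

variable {b : ℝ}

theorem av_mem (hb : 0 < b) {x : ℤ → ℝ} (hx : ∀ n, x n ∈ Icc (0 : ℝ) 1) (n : ℤ) :
    av b x n ∈ Icc (0 : ℝ) 1 := by
  have h1 := hx (n + 1)
  have h2 := hx (n - 1)
  unfold av
  constructor
  · exact div_nonneg (add_nonneg h1.1 (mul_nonneg hb.le h2.1)) (by linarith)
  · rw [div_le_one (by linarith)]
    have := mul_le_mul_of_nonneg_left h2.2 hb.le
    linarith [h1.2]

theorem av_sub (hb : 0 < b) {x y : ℤ → ℝ} {D : ℝ} (h : ∀ n, |x n - y n| ≤ D) (n : ℤ) :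
    |av b x n - av b y n| ≤ D := by
  have e : av b x n - av b y n =
      ((x (n + 1) - y (n + 1)) + b * (x (n - 1) - y (n - 1))) / (1 + b) := by
    unfold av
    ring
  rw [e, abs_div, abs_of_pos (by linarith : 0 < 1 + b), div_le_iff₀ (by linarith)]
  refine (abs_add_le _ _).trans ?_
  rw [abs_mul, abs_of_pos hb]
  have h1 := h (n + 1)
  have h2 := mul_le_mul_of_nonneg_left (h (n - 1)) hb.le
  linarith

theorem IsSol.mem {s : ℤ → Bool} {x : ℤ → ℝ} (h : IsSol b s x) (n : ℤ) : x n ∈ II (s n) := by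
  rw [h n]
  exact G_mem _ _

theorem IsSol.mem01 {s : ℤ → Bool} {x : ℤ → ℝ} (h : IsSol b s x) (n : ℤ) :
    x n ∈ Icc (0 : ℝ) 1 := II_sub _ (h.mem n)

theorem IsSol.rr {s : ℤ → Bool} {x : ℤ → ℝ} (hb : 0 < b) (h : IsSol b s x) (n : ℤ) :
    rr (x n) = av b x n := by
  have h1 := rr_G (s n) (av_mem hb h.mem01 n)
  rwa [← h n] at h1

theorem IsSol.shift {s : ℤ → Bool} {x : ℤ → ℝ} (h : IsSol b s x) (m : ℤ) :
    IsSol b (fun n => s (n + m)) (fun n => x (n + m)) := by
  intro n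
  have h1 := h (n + m)
  have e : av b (fun n => x (n + m)) n = av b x (n + m) := by
    change (x (n + 1 + m) + b * x (n - 1 + m)) / (1 + b) =
      (x (n + m + 1) + b * x (n + m - 1)) / (1 + b)
    rw [show n + 1 + m = n + m + 1 by ring, show n - 1 + m = n + m - 1 by ring]
  rw [e]
  exact h1

/-- the contracting case -/
theorem exists_t (hb : 0 < b) (s : ℤ → Bool) {t : ℝ} (ht0 : 0 ≤ t) (ht : t < 1) :
    ∃ x : ℤ → ℝ, ∀ n, x n = G (s n) (t * av b x n) := by
  let Φ : BoundedContinuousFunction ℤ ℝ → BoundedContinuousFunction ℤ ℝ := fun x =>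
    BoundedContinuousFunction.ofNormedAddCommGroupDiscrete (fun n => G (s n) (t * av b x n)) 1
      (fun n => by
        have h := G_mem01 (s n) (t * av b x n)
        rw [Real.norm_eq_abs, abs_of_nonneg h.1]
        exact h.2)
  have hΦ : ∀ x n, Φ x n = G (s n) (t * av b x n) := fun _ _ => rfl
  have hc : ContractingWith t.toNNReal Φ := by
    refine ⟨?_, LipschitzWith.of_dist_le_mul fun x y => ?_⟩
    · rw [Real.toNNReal_lt_one]
      exact ht
    · rw [Real.coe_toNNReal t ht0, BoundedContinuousFunction.dist_le (by positivity)]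
      intro n
      rw [hΦ, hΦ, Real.dist_eq]
      refine (G_lip _ _ _).trans ?_
      rw [← mul_sub, abs_mul, abs_of_nonneg ht0]
      refine mul_le_mul_of_nonneg_left ?_ ht0
      refine av_sub hb (fun m => ?_) n
      rw [← Real.dist_eq]
      exact BoundedContinuousFunction.dist_coe_le_dist m
  refine ⟨fun n => hc.fixedPoint Φ n, fun n => ?_⟩
  have h1 : Φ (hc.fixedPoint Φ) = hc.fixedPoint Φ := hc.fixedPoint_isFixedPt
  have h2 := hΦ (hc.fixedPoint Φ) n
  rw [h1] at h2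
  exact h2

theorem av_tendsto {x : ℕ → ℤ → ℝ} {y : ℤ → ℝ} (h : Tendsto x atTop (𝓝 y)) (n : ℤ) :
    Tendsto (fun k => av b (x k) n) atTop (𝓝 (av b y n)) := by
  rw [tendsto_pi_nhds] at h
  unfold av
  exact ((h (n + 1)).add ((h (n - 1)).const_mul b)).div_const _

theorem exists_sol (hb : 0 < b) (s : ℤ → Bool) : ∃ x : ℤ → ℝ, IsSol b s x := by
  have ht : ∀ k : ℕ, ∃ x : ℤ → ℝ, ∀ n, x n = G (s n) ((1 - 1 / ((k : ℝ) + 1)) * av b x n) := by
    intro k
    have hk : (0 : ℝ) < (k : ℝ) + 1 := by positivity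
    refine exists_t hb s ?_ ?_
    · rw [sub_nonneg, div_le_one hk]
      have : (0 : ℝ) ≤ k := Nat.cast_nonneg k
      linarith
    · have : 0 < 1 / ((k : ℝ) + 1) := by positivity
      linarith
  choose x hx using ht
  have hK : IsCompact (Set.pi univ fun _ : ℤ => Icc (0 : ℝ) 1) :=
    isCompact_univ_pi fun _ => isCompact_Icc
  have hxK : ∀ k, x k ∈ Set.pi univ fun _ : ℤ => Icc (0 : ℝ) 1 := by
    intro k n _
    rw [hx k n]
    exact G_mem01 _ _
  obtain ⟨y, -, φ, hφ, hy⟩ := hK.tendsto_subseq hxK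
  refine ⟨y, fun n => ?_⟩
  have h1 : Tendsto (fun k => (x ∘ φ) k n) atTop (𝓝 (y n)) := (tendsto_pi_nhds.1 hy) n
  have h2 : Tendsto (fun k : ℕ => (1 - 1 / ((φ k : ℝ) + 1)) * av b ((x ∘ φ) k) n) atTop
      (𝓝 (1 * av b y n)) := by
    refine Tendsto.mul ?_ (av_tendsto hy n)
    have h3 := (tendsto_one_div_add_atTop_nhds_zero_nat (𝕜 := ℝ)).comp hφ.tendsto_atTop
    have h4 := h3.const_sub 1
    rw [sub_zero] at h4
    exact h4
  have h3 := ((G_continuous (s n)).tendsto _).comp h2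
  rw [one_mul] at h3
  refine tendsto_nhds_unique h1 (h3.congr fun k => ?_)
  exact (hx (φ k) n).symm

theorem G_cont2 : Continuous fun p : Bool × ℝ => G p.1 p.2 :=
  continuous_prod_of_discrete_left.2 G_continuous

theorem isClosed_sol (b : ℝ) : IsClosed {p : (ℤ → Bool) × (ℤ → ℝ) | IsSol b p.1 p.2} := by
  have e : {p : (ℤ → Bool) × (ℤ → ℝ) | IsSol b p.1 p.2} =
      ⋂ n : ℤ, {p | p.2 n = G (p.1 n) (av b p.2 n)} := by
    ext p
    simp [IsSol]
  rw [e]
  refine isClosed_iInter fun n => isClosed_eq ?_ ?_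
  · fun_prop
  · refine G_cont2.comp (Continuous.prodMk (by fun_prop) ?_)
    fun_prop

theorem isCompact_sol (b : ℝ) : IsCompact {p : (ℤ → Bool) × (ℤ → ℝ) | IsSol b p.1 p.2} := by
  have hK : IsCompact ((univ : Set (ℤ → Bool)) ×ˢ (Set.pi univ fun _ : ℤ => Icc (0 : ℝ) 1)) :=
    isCompact_univ.prod (isCompact_univ_pi fun _ => isCompact_Icc)
  refine hK.of_isClosed_subset (isClosed_sol b) ?_
  rintro ⟨s, x⟩ h
  exact ⟨mem_univ _, fun n _ => IsSol.mem01 h n⟩

/-- the orbit is determined by its itinerary -/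
theorem sol_unique (hb : 0 < b) {s : ℤ → Bool} {x y : ℤ → ℝ} (hx : IsSol b s x)
    (hy : IsSol b s y) : x = y := by
  let S : Set ((ℤ → Bool) × (ℤ → ℝ) × (ℤ → ℝ)) :=
    {p | IsSol b p.1 p.2.1 ∧ IsSol b p.1 p.2.2}
  have hS : IsCompact S := by
    have hK : IsCompact ((univ : Set (ℤ → Bool)) ×ˢ ((Set.pi univ fun _ : ℤ => Icc (0 : ℝ) 1) ×ˢ
        (Set.pi univ fun _ : ℤ => Icc (0 : ℝ) 1))) :=
      isCompact_univ.prod ((isCompact_univ_pi fun _ => isCompact_Icc).prod
        (isCompact_univ_pi fun _ => isCompact_Icc))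
    refine hK.of_isClosed_subset ?_ ?_
    · refine IsClosed.inter ?_ ?_
      · exact (isClosed_sol b).preimage
          (f := fun p : (ℤ → Bool) × (ℤ → ℝ) × (ℤ → ℝ) => (p.1, p.2.1)) (by fun_prop)
      · exact (isClosed_sol b).preimage
          (f := fun p : (ℤ → Bool) × (ℤ → ℝ) × (ℤ → ℝ) => (p.1, p.2.2)) (by fun_prop)
    · rintro ⟨s, x, y⟩ ⟨h1, h2⟩
      exact ⟨mem_univ _, fun n _ => IsSol.mem01 h1 n, fun n _ => IsSol.mem01 h2 n⟩
  obtain ⟨⟨s', x', y'⟩, hp, hmax⟩ := hS.exists_isMaxOn ⟨(s, x, y), ⟨hx, hy⟩⟩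
    (f := fun p : (ℤ → Bool) × (ℤ → ℝ) × (ℤ → ℝ) => |p.2.1 0 - p.2.2 0|)
    (by fun_prop : Continuous _).continuousOn
  have hD : ∀ q ∈ S, ∀ n, |q.2.1 n - q.2.2 n| ≤ |x' 0 - y' 0| := by
    rintro ⟨s1, x1, y1⟩ ⟨h1, h2⟩ n
    have h3 : ((fun m => s1 (m + n)), (fun m => x1 (m + n)), (fun m => y1 (m + n))) ∈ S :=
      ⟨h1.shift n, h2.shift n⟩
    have h4 := hmax h3
    simp only [mem_ofPred_eq, zero_add] at h4
    exact h4
  have hD0 : x' 0 = y' 0 := by
    by_contra hne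
    have e1 := hp.1 0
    have e2 := hp.2 0
    simp only at e1 e2
    have h1 : G (s' 0) (av b x' 0) ≠ G (s' 0) (av b y' 0) := by
      rw [← e1, ← e2]
      exact hne
    have h2 := G_lt _ h1
    rw [← e1, ← e2] at h2
    have h3 := av_sub hb (fun n => hD _ hp n) 0
    simp only at h3
    exact absurd h2 (not_lt.2 h3)
  funext n
  have h1 := hD _ (show (s, x, y) ∈ S from ⟨hx, hy⟩) n
  rw [hD0, sub_self, abs_zero] at h1
  exact sub_eq_zero.1 (abs_nonpos_iff.1 h1)

/-- the orbit with the itinerary `s` -/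
noncomputable def X (hb : 0 < b) (s : ℤ → Bool) : ℤ → ℝ := Classical.choose (exists_sol hb s)

theorem X_sol (hb : 0 < b) (s : ℤ → Bool) : IsSol b s (X hb s) :=
  Classical.choose_spec (exists_sol hb s)

theorem X_eq (hb : 0 < b) {s : ℤ → Bool} {x : ℤ → ℝ} (h : IsSol b s x) : X hb s = x :=
  sol_unique hb (X_sol hb s) h

theorem X_shift (hb : 0 < b) (s : ℤ → Bool) (m : ℤ) :
    X hb (fun n => s (n + m)) = fun n => X hb s (n + m) := X_eq hb ((X_sol hb s).shift m)

theorem X_continuous (hb : 0 < b) : Continuous (X hb) := by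
  rw [continuous_iff_isClosed]
  intro C hC
  have e : X hb ⁻¹' C =
      Prod.fst '' ({p : (ℤ → Bool) × (ℤ → ℝ) | IsSol b p.1 p.2} ∩ Prod.snd ⁻¹' C) := by
    ext s
    constructor
    · intro h
      exact ⟨(s, X hb s), ⟨X_sol hb s, h⟩, rfl⟩
    · rintro ⟨⟨s', x⟩, ⟨h1, h2⟩, rfl⟩
      have h3 : X hb s' = x := X_eq hb h1
      change X hb s' ∈ C
      rw [h3]
      exact h2
  rw [e]
  exact (((isCompact_sol b).inter_right (hC.preimage continuous_snd)).image
    continuous_fst).isClosed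

/-- the point of the plane with the itinerary `s` -/
noncomputable def Psi (hb : 0 < b) (s : ℤ → Bool) : ℝ × ℝ := (X hb s 0, X hb s (-1))

theorem Psi_continuous (hb : 0 < b) : Continuous (Psi hb) := by
  have h := X_continuous hb
  unfold Psi
  exact ((continuous_apply 0).comp h).prodMk ((continuous_apply (-1)).comp h)

theorem X_succ (hb : 0 < b) (s : ℤ → Bool) (n : ℤ) :
    X hb s (n + 1) = (1 + b) * rr (X hb s n) - b * X hb s (n - 1) := by
  have h := (X_sol hb s).rr hb n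
  rw [h]
  unfold av
  field_simp
  ring

theorem X_pred (hb : 0 < b) (s : ℤ → Bool) (n : ℤ) :
    X hb s (n - 1) = ((1 + b) * rr (X hb s n) - X hb s (n + 1)) / b := by
  rw [X_succ hb s n]
  field_simp
  ring

theorem Psi_injective (hb : 0 < b) : Function.Injective (Psi hb) := by
  intro s s' h
  have h0 : X hb s 0 = X hb s' 0 := congrArg Prod.fst h
  have h1 : X hb s (-1) = X hb s' (-1) := congrArg Prod.snd h
  have hall : ∀ n : ℕ, (X hb s n = X hb s' n ∧ X hb s ((n : ℤ) - 1) = X hb s' ((n : ℤ) - 1)) := by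
    intro n
    induction n with
    | zero =>
      simp only [Nat.cast_zero, zero_sub]
      exact ⟨h0, h1⟩
    | succ n ih =>
      have e : ((n + 1 : ℕ) : ℤ) = (n : ℤ) + 1 := by push_cast; rfl
      rw [e, add_sub_cancel_right, X_succ hb s, X_succ hb s', ih.1, ih.2]
      exact ⟨rfl, rfl⟩
  have hneg : ∀ n : ℕ, (X hb s (-(n : ℤ)) = X hb s' (-(n : ℤ)) ∧
      X hb s (-(n : ℤ) - 1) = X hb s' (-(n : ℤ) - 1)) := by
    intro n
    induction n with
    | zero =>
      simp only [Nat.cast_zero, neg_zero, zero_sub]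
      exact ⟨h0, h1⟩
    | succ n ih =>
      have e : (-((n + 1 : ℕ) : ℤ)) = -(n : ℤ) - 1 := by push_cast; ring
      rw [e]
      refine ⟨ih.2, ?_⟩
      rw [X_pred hb s, X_pred hb s', sub_add_cancel, ih.1, ih.2]
  have hx : ∀ n, X hb s n = X hb s' n := by
    intro n
    rcases Int.eq_nat_or_neg n with ⟨m, rfl | rfl⟩
    · exact (hall m).1
    · exact (hneg m).1
  funext n
  have h2 := (X_sol hb s).mem n
  have h3 := (X_sol hb s').mem n
  rw [hx n] at h2
  exact II_disj h2 h3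

/-- the Henon map with the polynomial `(1 + b) (x + 19 x² - 20 x³)` -/
noncomputable def F (b : ℝ) (z : ℝ × ℝ) : ℝ × ℝ := ((1 + b) * rr z.1 - b * z.2, z.1)

theorem F_Psi (hb : 0 < b) (s : ℤ → Bool) : F b (Psi hb s) = Psi hb fun n => s (n + 1) := by
  unfold Psi F
  rw [X_shift hb s 1]
  have h := X_succ hb s 0
  simp only [zero_add, zero_sub] at h
  simp only [zero_add, neg_add_cancel]
  rw [h]

theorem F_iter_Psi (hb : 0 < b) (s : ℤ → Bool) (k : ℕ) :
    (F b)^[k] (Psi hb s) = Psi hb fun n => s (n + k) := by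
  induction k generalizing s with
  | zero => simp
  | succ k ih =>
    rw [Function.iterate_succ_apply, F_Psi, ih]
    congr 1
    funext n
    push_cast
    congr 1
    ring

end Pool.Agent.Wild
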