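import Mathlib

/-!
# MP_3dbc4a_an: real Henon maps and wild attractors, definitions
-/

set_option autoImplicit false

open Filter Set MeasureTheory
open scoped Topology

namespace Pool.Agent.Wild

/-- The real Henon map `(x, y) ↦ (p(x) - b y, x)`. -/
noncomputable def henon (p : Polynomial ℝ) (b : ℝ) (z : ℝ × ℝ) : ℝ × ℝ :=
  (p.eval z.1 - b * z.2, z.1)

/-- The `ω`-limit set of the forward orbit of `z`. -/
def omegaSet (f : ℝ × ℝ → ℝ × ℝ) (z : ℝ × ℝ) : Set (ℝ × ℝ) :=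
  {w | MapClusterPt w atTop fun n : ℕ => f^[n] z}

/-- The basin of `Λ`: the points with a nonempty `ω`-limit set contained in `Λ`. -/
def basin (f : ℝ × ℝ → ℝ × ℝ) (Λ : Set (ℝ × ℝ)) : Set (ℝ × ℝ) :=
  {z | (omegaSet f z).Nonempty ∧ omegaSet f z ⊆ Λ}

/-- `Λ` is a Cantor set: nonempty, compact, perfect and totally disconnected. -/
def IsCantorSet (Λ : Set (ℝ × ℝ)) : Prop :=
  Λ.Nonempty ∧ IsCompact Λ ∧ Perfect Λ ∧ IsTotallyDisconnected Λ

/-- `T` is a transitive set: compact, `f(T) = T`, and some point of `T` has the `ω`-limit set `T`. -/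
def IsTransitiveSet (f : ℝ × ℝ → ℝ × ℝ) (T : Set (ℝ × ℝ)) : Prop :=
  IsCompact T ∧ f '' T = T ∧ ∃ z ∈ T, omegaSet f z = T

/-- `Λ` is a wild attractor of `f`: a Cantor set with `f(Λ) = Λ` which attracts a set of positive
Lebesgue measure and is strictly contained in a transitive set. -/
def IsWildAttractor (f : ℝ × ℝ → ℝ × ℝ) (Λ : Set (ℝ × ℝ)) : Prop :=
  IsCantorSet Λ ∧ f '' Λ = Λ ∧ 0 < volume (basin f Λ) ∧ ∃ T, IsTransitiveSet f T ∧ Λ ⊂ T

end Pool.Agent.Wild
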