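import Pool.Agent.Lib.MP_3dbc4a_an.Shift

/-!
# MP_3dbc4a_an: a sequence with dense forward orbit in the golden mean subshift
-/

set_option autoImplicit false

open Filter Set
open scoped Topology

namespace Pool.Agent.Wild

instance gm_nonempty : Nonempty gm := ⟨⟨_, gm_zero⟩⟩

/-- a sequence in the golden mean subshift which contains all its words infinitely often -/
noncomputable def ugm (n : ℤ) : Bool :=
  if n - (Nat.sqrt n.toNat : ℤ) * (Nat.sqrt n.toNat : ℤ) - (Nat.sqrt n.toNat : ℤ) =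
    (Nat.sqrt n.toNat : ℤ) then false else
  (TopologicalSpace.denseSeq gm (Nat.unpair (Nat.sqrt n.toNat)).1).1
    (n - (Nat.sqrt n.toNat : ℤ) * (Nat.sqrt n.toNat : ℤ) - (Nat.sqrt n.toNat : ℤ))

theorem ugm_block (m : ℕ) {j : ℤ} (hj : |j| < m) :
    ugm (j + ((m * m + m : ℕ) : ℤ)) =
      (TopologicalSpace.denseSeq gm (Nat.unpair m).1).1 j := by
  rw [abs_lt] at hj
  obtain ⟨a, ha⟩ : ∃ a : ℕ, (a : ℤ) = j + m := ⟨(j + m).toNat, Int.toNat_of_nonneg (by linarith)⟩
  have e : j + ((m * m + m : ℕ) : ℤ) = ((m * m + a : ℕ) : ℤ) := by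
    push_cast
    rw [ha]
    ring
  have hs : Nat.sqrt (j + ((m * m + m : ℕ) : ℤ)).toNat = m := by
    rw [e, Int.toNat_natCast]
    refine Nat.sqrt_add_eq m ?_
    have : (a : ℤ) ≤ m + m := by
      rw [ha]
      linarith
    exact_mod_cast this
  have e2 : j + ((m * m + m : ℕ) : ℤ) - (m : ℤ) * (m : ℤ) - (m : ℤ) = j := by
    push_cast
    ring
  unfold ugm
  rw [hs, e2, if_neg hj.2.ne]

theorem ugm_mem : ugm ∈ gm := by
  rintro n ⟨h1, h2⟩
  unfold ugm at h1 h2
  split_ifs at h1 h2 with c1 c2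
  -- the position `n` is not the last one of its block, so `n + 1` lies in the same block
  have hs : Nat.sqrt (n + 1).toNat = Nat.sqrt n.toNat := by
    rcases lt_or_ge n 0 with hn | hn
    · have e1 : (n + 1).toNat = 0 := Int.toNat_of_nonpos (by linarith)
      have e2 : n.toNat = 0 := Int.toNat_of_nonpos (by linarith)
      rw [e1, e2]
    · obtain ⟨k, rfl⟩ : ∃ k : ℕ, n = (k : ℤ) := ⟨n.toNat, (Int.toNat_of_nonneg hn).symm⟩
      have e1 : ((k : ℤ) + 1).toNat = k + 1 := by
        have : ((k : ℤ) + 1) = ((k + 1 : ℕ) : ℤ) := by push_cast; rfl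
        rw [this, Int.toNat_natCast]
      rw [Int.toNat_natCast] at c1
      rw [e1, Int.toNat_natCast]
      have h3 := Nat.sqrt_le k
      have h4 := Nat.sqrt_le_add k
      have h5 : k ≠ Nat.sqrt k * Nat.sqrt k + Nat.sqrt k + Nat.sqrt k := by
        intro h
        apply c1
        have : (k : ℤ) = (Nat.sqrt k : ℤ) * Nat.sqrt k + Nat.sqrt k + Nat.sqrt k := by
          exact_mod_cast h
        linarith
      have h6 : k + 1 ≤ Nat.sqrt k * Nat.sqrt k + Nat.sqrt k + Nat.sqrt k := by omega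
      obtain ⟨a, ha⟩ : ∃ a : ℕ, k + 1 = Nat.sqrt k * Nat.sqrt k + a :=
        ⟨k + 1 - Nat.sqrt k * Nat.sqrt k, by omega⟩
      rw [ha]
      refine Nat.sqrt_add_eq _ ?_
      omega
  rw [hs] at h2
  have e : n + 1 - (Nat.sqrt n.toNat : ℤ) * (Nat.sqrt n.toNat : ℤ) - (Nat.sqrt n.toNat : ℤ) =
      (n - (Nat.sqrt n.toNat : ℤ) * (Nat.sqrt n.toNat : ℤ) - (Nat.sqrt n.toNat : ℤ)) + 1 := by ring
  rw [e] at h2
  exact (TopologicalSpace.denseSeq gm (Nat.unpair (Nat.sqrt n.toNat)).1).2 _ ⟨h1, h2⟩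

theorem ugm_cluster {s : ℤ → Bool} (hs : s ∈ gm) :
    MapClusterPt s atTop fun t : ℕ => fun n : ℤ => ugm (n + t) := by
  have hclosed : IsClosed {s : ℤ → Bool |
      MapClusterPt s atTop fun t : ℕ => fun n : ℤ => ugm (n + t)} := isClosed_setOfPred_clusterPt
  have hd : DenseRange (TopologicalSpace.denseSeq gm) :=
    TopologicalSpace.denseRange_denseSeq _
  have hr : ∀ k, ((TopologicalSpace.denseSeq gm k).1 : ℤ → Bool) ∈ {s : ℤ → Bool |
      MapClusterPt s atTop fun t : ℕ => fun n : ℤ => ugm (n + t)} := by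
    intro k
    have hφ : Tendsto (fun i : ℕ => Nat.pair k i * Nat.pair k i + Nat.pair k i) atTop atTop := by
      refine tendsto_atTop_mono (fun i => ?_) tendsto_id
      have h1 : i ≤ Nat.pair k i := Nat.right_le_pair k i
      simp only [id]
      exact h1.trans (Nat.le_add_left _ _)
    refine MapClusterPt.of_comp hφ (Tendsto.mapClusterPt ?_)
    rw [tendsto_pi_nhds]
    intro n
    refine tendsto_const_nhds.congr' ?_
    filter_upwards [eventually_gt_atTop n.natAbs] with i hi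
    have h1 : i ≤ Nat.pair k i := Nat.right_le_pair k i
    have h2 : |n| < (Nat.pair k i : ℕ) := by
      rw [Int.abs_eq_natAbs]
      exact_mod_cast hi.trans_le h1
    have h3 := ugm_block (Nat.pair k i) h2
    rw [Nat.unpair_pair] at h3
    exact h3.symm
  have h1 : IsClosed ((Subtype.val : gm → ℤ → Bool) ⁻¹' {s : ℤ → Bool |
      MapClusterPt s atTop fun t : ℕ => fun n : ℤ => ugm (n + t)}) :=
    hclosed.preimage continuous_subtype_val
  have h2 : range (TopologicalSpace.denseSeq gm) ⊆ (Subtype.val : gm → ℤ → Bool) ⁻¹'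
      {s : ℤ → Bool | MapClusterPt s atTop fun t : ℕ => fun n : ℤ => ugm (n + t)} := by
    rintro _ ⟨k, rfl⟩
    exact hr k
  have h3 := h1.closure_subset_iff.2 h2
  rw [hd.closure_range] at h3
  exact h3 (mem_univ (⟨s, hs⟩ : gm))

end Pool.Agent.Wild
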