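import Pool.Agent.Lib.MP_3dbc4a_an.Basin
import Pool.Agent.Lib.MP_3dbc4a_an.ShiftGm

/-!
# MP_3dbc4a_an: a Cantor set in a saddle-node horseshoe
-/

set_option autoImplicit false

open Filter Set MeasureTheory
open scoped Topology

namespace Pool.Agent.Wild

variable {b : ℝ}

theorem Psi_embedding (hb : 0 < b) : Topology.IsEmbedding (Psi hb) :=
  ((Psi_continuous hb).isClosedEmbedding (Psi_injective hb)).isEmbedding

theorem Psi_false (hb : 0 < b) : Psi hb (fun _ => false) = ((0 : ℝ), (0 : ℝ)) := by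
  have h : X hb (fun _ => false) = fun _ => (0 : ℝ) := by
    refine X_eq hb fun n => ?_
    have h1 : av b (fun _ => (0 : ℝ)) n = 0 := by
      unfold av
      simp
    rw [h1]
    exact (G_eq (i := false) (x := 0) (u := 0) ⟨le_rfl, by norm_num⟩ ⟨le_rfl, zero_le_one⟩
      (by norm_num [rr])).symm
  unfold Psi
  rw [h]

/-- the horseshoe -/
theorem horseshoe_transitive (hb : 0 < b) : IsTransitiveSet (F b) (range (Psi hb)) := by
  have hcomp : IsCompact (range (Psi hb)) := isCompact_range (Psi_continuous hb)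
  refine ⟨hcomp, ?_, Psi hb uni, ⟨uni, rfl⟩, ?_⟩
  · ext z
    constructor
    · rintro ⟨_, ⟨s, rfl⟩, rfl⟩
      exact ⟨_, (F_Psi hb s).symm⟩
    · rintro ⟨s, rfl⟩
      refine ⟨Psi hb fun n => s (n + (-1)), ⟨_, rfl⟩, ?_⟩
      rw [F_Psi]
      congr 1
      funext n
      congr 1
      ring
  · have hit : (fun k : ℕ => (F b)^[k] (Psi hb uni)) =
        Psi hb ∘ fun k : ℕ => fun n : ℤ => uni (n + k) := by
      funext k
      exact F_iter_Psi hb uni k
    ext z
    constructor
    · intro hz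
      have h1 : MapClusterPt z atTop fun k : ℕ => (F b)^[k] (Psi hb uni) := hz
      refine hcomp.isClosed.mem_of_mapClusterPt h1 (Eventually.of_forall fun k => ?_)
      rw [F_iter_Psi]
      exact ⟨_, rfl⟩
    · rintro ⟨s, rfl⟩
      change MapClusterPt (Psi hb s) atTop fun k : ℕ => (F b)^[k] (Psi hb uni)
      rw [hit]
      exact (uni_cluster s).continuousAt_comp (Psi_continuous hb).continuousAt

theorem gm_image (hb : 0 < b) : F b '' (Psi hb '' gm) = Psi hb '' gm := by
  ext z
  constructor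
  · rintro ⟨_, ⟨s, hs, rfl⟩, rfl⟩
    exact ⟨_, gm_shift hs 1, (F_Psi hb s).symm⟩
  · rintro ⟨s, hs, rfl⟩
    refine ⟨Psi hb fun n => s (n + (-1)), ⟨_, gm_shift hs (-1), rfl⟩, ?_⟩
    rw [F_Psi]
    congr 1
    funext n
    congr 1
    ring

theorem gm_cantor (hb : 0 < b) : IsCantorSet (Psi hb '' gm) := by
  have hc : IsCompact (Psi hb '' gm) := gm_closed.isCompact.image (Psi_continuous hb)
  refine ⟨⟨_, _, gm_zero, rfl⟩, hc, ⟨hc.isClosed, ?_⟩, ?_⟩
  · rintro _ ⟨s, hs, rfl⟩
    obtain ⟨y, hy1, hy2, hy3⟩ := gm_perfect hs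
    rw [accPt_iff_frequently]
    have h1 : Tendsto (fun k => Psi hb (y k)) atTop (𝓝 (Psi hb s)) :=
      ((Psi_continuous hb).tendsto s).comp hy3
    refine h1.frequently (Frequently.of_forall fun k => ⟨?_, _, hy1 k, rfl⟩)
    exact fun h => hy2 k (Psi_injective hb h)
  · rw [(Psi_embedding hb).isTotallyDisconnected_image]
    exact isTotallyDisconnected_of_totallyDisconnectedSpace gm

theorem wild (hb : 0 < b) (hb1 : b < 1) : IsWildAttractor (F b) (Psi hb '' gm) := by
  have h0 : ((0 : ℝ), (0 : ℝ)) ∈ Psi hb '' gm := ⟨_, gm_zero, Psi_false hb⟩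
  refine ⟨gm_cantor hb, gm_image hb, ?_, range (Psi hb), horseshoe_transitive hb, ?_⟩
  · obtain ⟨z, hz⟩ := basin_interior hb hb1 h0
    exact (isOpen_interior.measure_pos volume ⟨z, hz⟩).trans_le (measure_mono interior_subset)
  · refine ⟨image_subset_range _ _, fun h => ?_⟩
    obtain ⟨s, hs, e⟩ := h ⟨fun _ => true, rfl⟩
    exact gm_ne_univ (Psi_injective hb e ▸ hs)

/-- the golden mean part of the horseshoe is transitive -/
theorem gm_transitive (hb : 0 < b) : IsTransitiveSet (F b) (Psi hb '' gm) := by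
  have hcomp : IsCompact (Psi hb '' gm) := gm_closed.isCompact.image (Psi_continuous hb)
  refine ⟨hcomp, gm_image hb, Psi hb ugm, ⟨ugm, ugm_mem, rfl⟩, ?_⟩
  have hit : (fun k : ℕ => (F b)^[k] (Psi hb ugm)) =
      Psi hb ∘ fun k : ℕ => fun n : ℤ => ugm (n + k) := by
    funext k
    exact F_iter_Psi hb ugm k
  ext z
  constructor
  · intro hz
    have h1 : MapClusterPt z atTop fun k : ℕ => (F b)^[k] (Psi hb ugm) := hz
    refine hcomp.isClosed.mem_of_mapClusterPt h1 (Eventually.of_forall fun k => ?_)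
    rw [F_iter_Psi]
    exact ⟨_, gm_shift ugm_mem k, rfl⟩
  · rintro ⟨s, hs, rfl⟩
    change MapClusterPt (Psi hb s) atTop fun k : ℕ => (F b)^[k] (Psi hb ugm)
    rw [hit]
    exact (ugm_cluster hs).continuousAt_comp (Psi_continuous hb).continuousAt

/-- the cubic polynomial as a polynomial -/
noncomputable def pp (b : ℝ) : Polynomial ℝ :=
  Polynomial.C (-(20 * (1 + b))) * Polynomial.X ^ 3 +
    Polynomial.C (19 * (1 + b)) * Polynomial.X ^ 2 + Polynomial.C (1 + b) * Polynomial.X

theorem henon_pp (b : ℝ) : henon (pp b) b = F b := by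
  funext z
  unfold henon F pp rr
  simp only [Polynomial.eval_add, Polynomial.eval_mul, Polynomial.eval_C, Polynomial.eval_pow,
    Polynomial.eval_X, Prod.mk.injEq, and_true]
  ring

theorem pp_degree (hb : 0 < b) : (pp b).natDegree = 3 := by
  have h : 1 + b ≠ 0 := by linarith
  unfold pp
  compute_degree!

end Pool.Agent.Wild
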