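import Pool.Agent.Lib.MP_3dbc4a_an.Defs

/-!
# MP_3dbc4a_an: two sided sequences: a sequence with dense forward orbit, the golden mean subshift
-/

set_option autoImplicit false

open Filter Set
open scoped Topology

namespace Pool.Agent.Wild

/-- a sequence which contains all finite words infinitely often -/
noncomputable def uni (n : ℤ) : Bool :=
  TopologicalSpace.denseSeq (ℤ → Bool) (Nat.unpair (Nat.sqrt n.toNat)).1
    (n - (Nat.sqrt n.toNat : ℤ) * (Nat.sqrt n.toNat : ℤ) - (Nat.sqrt n.toNat : ℤ))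

theorem uni_block (m : ℕ) {j : ℤ} (hj : |j| ≤ m) :
    uni (j + ((m * m + m : ℕ) : ℤ)) =
      TopologicalSpace.denseSeq (ℤ → Bool) (Nat.unpair m).1 j := by
  rw [abs_le] at hj
  obtain ⟨a, ha⟩ : ∃ a : ℕ, (a : ℤ) = j + m := ⟨(j + m).toNat, Int.toNat_of_nonneg (by linarith)⟩
  have e : j + ((m * m + m : ℕ) : ℤ) = ((m * m + a : ℕ) : ℤ) := by
    push_cast
    rw [ha]
    ring
  have hs : Nat.sqrt (j + ((m * m + m : ℕ) : ℤ)).toNat = m := by
    rw [e, Int.toNat_natCast]
    refine Nat.sqrt_add_eq m ?_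
    have : (a : ℤ) ≤ m + m := by
      rw [ha]
      linarith
    exact_mod_cast this
  have e2 : j + ((m * m + m : ℕ) : ℤ) - (m : ℤ) * (m : ℤ) - (m : ℤ) = j := by
    push_cast
    ring
  unfold uni
  rw [hs, e2]

theorem uni_cluster (s : ℤ → Bool) :
    MapClusterPt s atTop fun t : ℕ => fun n : ℤ => uni (n + t) := by
  have hclosed : IsClosed {s : ℤ → Bool |
      MapClusterPt s atTop fun t : ℕ => fun n : ℤ => uni (n + t)} := isClosed_setOfPred_clusterPt
  have hd : DenseRange (TopologicalSpace.denseSeq (ℤ → Bool)) :=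
    TopologicalSpace.denseRange_denseSeq _
  have hr : range (TopologicalSpace.denseSeq (ℤ → Bool)) ⊆ {s : ℤ → Bool |
      MapClusterPt s atTop fun t : ℕ => fun n : ℤ => uni (n + t)} := by
    rintro _ ⟨k, rfl⟩
    have hφ : Tendsto (fun i : ℕ => Nat.pair k i * Nat.pair k i + Nat.pair k i) atTop atTop := by
      refine tendsto_atTop_mono (fun i => ?_) tendsto_id
      have h1 : i ≤ Nat.pair k i := Nat.right_le_pair k i
      simp only [id]
      exact h1.trans (Nat.le_add_left _ _)
    refine MapClusterPt.of_comp hφ (Tendsto.mapClusterPt ?_)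
    rw [tendsto_pi_nhds]
    intro n
    refine tendsto_const_nhds.congr' ?_
    filter_upwards [eventually_ge_atTop n.natAbs] with i hi
    have h1 : i ≤ Nat.pair k i := Nat.right_le_pair k i
    have h2 : |n| ≤ (Nat.pair k i : ℕ) := by
      rw [Int.abs_eq_natAbs]
      exact_mod_cast hi.trans h1
    have h3 := uni_block (Nat.pair k i) h2
    rw [Nat.unpair_pair] at h3
    exact h3.symm
  have h1 := hclosed.closure_subset_iff.2 hr
  rw [hd.closure_range] at h1
  exact h1 (mem_univ s)

/-- the golden mean subshift: no two consecutive ones -/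
def gm : Set (ℤ → Bool) := {s | ∀ n, ¬ (s n = true ∧ s (n + 1) = true)}

theorem gm_closed : IsClosed gm := by
  have e : gm = ⋂ n : ℤ, {s : ℤ → Bool | ¬ (s n = true ∧ s (n + 1) = true)} := by
    ext s
    simp [gm]
  rw [e]
  refine isClosed_iInter fun n => ?_
  exact (isClosed_discrete {p : Bool × Bool | ¬ (p.1 = true ∧ p.2 = true)}).preimage
    (f := fun s : ℤ → Bool => (s n, s (n + 1))) (by fun_prop)

theorem gm_shift {s : ℤ → Bool} (hs : s ∈ gm) (m : ℤ) : (fun n => s (n + m)) ∈ gm := by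
  intro n
  have h := hs (n + m)
  have e : n + 1 + m = n + m + 1 := by ring
  change ¬ (s (n + m) = true ∧ s (n + 1 + m) = true)
  rw [e]
  exact h

theorem gm_zero : (fun _ => false) ∈ gm := fun _ h => by simp at h

theorem gm_ne_univ : (fun _ => true) ∉ gm := fun h => h 0 ⟨rfl, rfl⟩

theorem gm_perfect {s : ℤ → Bool} (hs : s ∈ gm) :
    ∃ y : ℕ → ℤ → Bool, (∀ k, y k ∈ gm) ∧ (∀ k, y k ≠ s) ∧ Tendsto y atTop (𝓝 s) := by
  refine ⟨fun k n => if n ≤ k then s n else if n = k + 2 then !(s n) else false, ?_, ?_, ?_⟩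
  · rintro k n ⟨h1, h2⟩
    simp only at h1 h2
    by_cases c1 : n + 1 ≤ (k : ℤ)
    · rw [if_pos (by linarith : n ≤ (k : ℤ))] at h1
      rw [if_pos c1] at h2
      exact hs n ⟨h1, h2⟩
    · rw [if_neg c1] at h2
      by_cases c2 : n + 1 = (k : ℤ) + 2
      · rw [if_neg (by linarith : ¬ n ≤ (k : ℤ)), if_neg (by linarith : ¬ n = (k : ℤ) + 2)] at h1
        exact Bool.false_ne_true h1
      · rw [if_neg c2] at h2
        exact Bool.false_ne_true h2
  · intro k h
    have h1 := congrFun h ((k : ℤ) + 2)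
    have h2 : ¬ (k : ℤ) + 2 ≤ k := by linarith
    simp only [if_neg h2, if_true] at h1
    cases hc : s ((k : ℤ) + 2) <;> rw [hc] at h1 <;> simp at h1
  · rw [tendsto_pi_nhds]
    intro n
    refine tendsto_const_nhds.congr' ?_
    filter_upwards [eventually_ge_atTop n.toNat] with k hk
    have h1 : n ≤ (k : ℤ) := by
      have h2 : n ≤ (n.toNat : ℤ) := Int.self_le_toNat n
      have h3 : (n.toNat : ℤ) ≤ k := by exact_mod_cast hk
      linarith
    rw [if_pos h1]

end Pool.Agent.Wild
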